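import Pool.Agent.Helper16.BZ.Stmts

/-!
# Module PDC: the affine map has the property `PD`
-/

open Finset Filter MeasureTheory Topology
open scoped ComplexConjugate InnerProductSpace

namespace Pool.Agent.Helper16.BZ

open Pool.Agent.Helper16.AZ (T E Op mm)
open Pool.Agent.Helper16.MD (MS PB Rich)
open UnitAddTorus (mFourier)

theorem pdc_int {r : ℕ} (f : T r → ℂ) (hf : Continuous f) : Integrable f (mm r) :=
  hf.integrable_of_hasCompactSupport (HasCompactSupport.of_compactSpace _)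

theorem pdc_intR {r : ℕ} (f : T r → ℝ) (hf : Continuous f) : Integrable f (mm r) :=
  hf.integrable_of_hasCompactSupport (HasCompactSupport.of_compactSpace _)

theorem pdc_orth {r : ℕ} (X Y : Fin r → ℤ) :
    ∫ θ, mFourier (-X) θ * mFourier Y θ ∂(mm r) = if X = Y then 1 else 0 := by
  have h := (orthonormal_iff_ite.1 (UnitAddTorus.orthonormal_mFourier (d := Fin r))) X Y
  rw [ContinuousMap.inner_toLp] at h
  rw [← h]
  show _ = ∫ θ, mFourier Y θ * conj (mFourier X θ) ∂(mm r)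
  refine integral_congr_ae (Eventually.of_forall fun θ => ?_)
  simp only
  rw [UnitAddTorus.mFourier_neg, mul_comm]

theorem pdc_fc {r : ℕ} (F : Finset (Fin r → ℤ)) (a : (Fin r → ℤ) → ℂ) (X : Fin r → ℤ)
    (hX : X ∈ F) : AZ.fc (fun θ => ∑ Y ∈ F, a Y * mFourier Y θ) X = a X := by
  unfold AZ.fc
  have e1 : ∀ θ : T r, mFourier (-X) θ * ∑ Y ∈ F, a Y * mFourier Y θ =
      ∑ Y ∈ F, a Y * (mFourier (-X) θ * mFourier Y θ) := by
    intro θ
    rw [Finset.mul_sum]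
    refine Finset.sum_congr rfl fun Y _ => ?_
    ring
  simp only [e1]
  rw [integral_finsetSum]
  · simp only [integral_const_mul, pdc_orth, mul_ite, mul_one, mul_zero]
    rw [Finset.sum_ite_eq, if_pos hX]
  · intro Y _
    exact pdc_int _ (continuous_const.mul ((mFourier (-X)).continuous.mul (mFourier Y).continuous))

theorem pdc_app {r : ℕ} (F : T r → ℂ) (hF : Continuous F) (e : ℝ) (he : 0 < e) :
    ∃ c : (Fin r → ℤ) →₀ ℂ, ∀ x, ‖F x - ∑ X ∈ c.support, c X * mFourier X x‖ ≤ e := by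
  obtain ⟨f, hf⟩ : ∃ f : C(T r, ℂ), f = ⟨F, hF⟩ := ⟨_, rfl⟩
  have h1 : f ∈ closure ((Submodule.span ℂ (Set.range (mFourier (d := Fin r))) :
      Submodule ℂ C(T r, ℂ)) : Set C(T r, ℂ)) := by
    rw [← Submodule.topologicalClosure_coe, UnitAddTorus.span_mFourier_closure_eq_top (d := Fin r)]
    trivial
  obtain ⟨g, hg, hd⟩ := Metric.mem_closure_iff.1 h1 e he
  obtain ⟨c, hc⟩ := (Finsupp.mem_span_range_iff_exists_finsupp).1 hg
  refine ⟨c, fun x => ?_⟩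
  have h2 : g x = ∑ X ∈ c.support, c X * mFourier X x := by
    rw [← hc, Finsupp.sum, ContinuousMap.sum_apply]
    rfl
  rw [← h2]
  have h3 := (f - g).norm_coe_le_norm x
  rw [dist_eq_norm] at hd
  have h4 : (f - g) x = F x - g x := by rw [hf]; rfl
  rw [← h4]
  exact h3.trans hd.le

theorem pdc_mass {r : ℕ} (hP : AZ.ST_FPV) (G : T r → ℂ) (hG : Continuous G) (B : ℝ)
    (hB : ∀ x, ‖G x‖ ≤ B) (s : Finset (Fin r → ℤ)) : ∑ X ∈ s, ‖AZ.fc G X‖ ^ 2 ≤ B ^ 2 := by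
  have h := hP r G hG
  refine (sum_le_hasSum s (fun _ _ => by positivity) h).trans ?_
  calc ∫ θ, ‖G θ‖ ^ 2 ∂(mm r) ≤ ∫ _θ : T r, B ^ 2 ∂(mm r) := by
        refine integral_mono (pdc_intR _ (hG.norm.pow 2)) (integrable_const _) fun θ => ?_
        exact pow_le_pow_left₀ (norm_nonneg _) (hB θ) 2
    _ = B ^ 2 := by simp

theorem pdc_sub {r : ℕ} (F G : T r → ℂ) (hF : Continuous F) (hG : Continuous G)
    (X : Fin r → ℤ) : AZ.fc G X = AZ.fc F X + AZ.fc (fun θ => G θ - F θ) X := by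
  unfold AZ.fc
  have e1 : ∀ θ : T r, mFourier (-X) θ * (G θ - F θ) =
      mFourier (-X) θ * G θ - mFourier (-X) θ * F θ := fun θ => by ring
  simp only [e1]
  have e2 := integral_sub (μ := mm r) (f := fun θ => mFourier (-X) θ * G θ)
    (g := fun θ => mFourier (-X) θ * F θ)
    (pdc_int _ ((mFourier (-X)).continuous.mul hG)) (pdc_int _ ((mFourier (-X)).continuous.mul hF))
  rw [e2]
  ring

theorem pdc_high {r : ℕ} (hP : AZ.ST_FPV) (F G : T r → ℂ) (hF : Continuous F)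
    (hG : Continuous G) (e t : ℝ) (he : ∀ x, ‖F x - G x‖ ≤ e) (s : Finset (Fin r → ℤ))
    (hs : ∑ X ∈ s, ‖AZ.fc F X‖ ^ 2 ≤ t) :
    ∑ X ∈ s, ‖AZ.fc G X‖ ^ 2 ≤ 2 * t + 2 * e ^ 2 := by
  have h1 := pdc_mass hP (fun θ => G θ - F θ) (hG.sub hF) e (fun x => by
    rw [norm_sub_rev]
    exact he x) s
  have h2 : ∑ X ∈ s, ‖AZ.fc G X‖ ^ 2 ≤
      ∑ X ∈ s, (2 * ‖AZ.fc F X‖ ^ 2 + 2 * ‖AZ.fc (fun θ => G θ - F θ) X‖ ^ 2) := by
    refine Finset.sum_le_sum fun X _ => ?_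
    rw [pdc_sub F G hF hG X]
    have h3 := norm_add_le (AZ.fc F X) (AZ.fc (fun θ => G θ - F θ) X)
    have h4 := norm_nonneg (AZ.fc F X + AZ.fc (fun θ => G θ - F θ) X)
    have h5 := norm_nonneg (AZ.fc F X)
    have h6 := norm_nonneg (AZ.fc (fun θ => G θ - F θ) X)
    nlinarith [sq_nonneg (‖AZ.fc F X‖ - ‖AZ.fc (fun θ => G θ - F θ) X‖)]
  refine h2.trans ?_
  rw [Finset.sum_add_distrib, ← Finset.mul_sum, ← Finset.mul_sum]
  linarith

theorem pdc_zero {r : ℕ} (F G : T r → ℂ) (hF : Continuous F) (hG : Continuous G) (e : ℝ)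
    (he : ∀ x, ‖F x - G x‖ ≤ e) : ‖AZ.fc G 0 - ∫ θ, F θ ∂(mm r)‖ ≤ e := by
  have e1 : AZ.fc G 0 = ∫ θ, G θ ∂(mm r) := by
    unfold AZ.fc
    simp only [neg_zero, UnitAddTorus.mFourier_zero, ContinuousMap.one_apply, one_mul]
  rw [e1, ← integral_sub (pdc_int _ hG) (pdc_int _ hF)]
  have h := norm_integral_le_of_norm_le_const (μ := mm r) (f := fun θ => G θ - F θ) (C := e)
    (Eventually.of_forall fun x => by
      rw [norm_sub_rev]
      exact he x)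
  simpa using h

theorem pdc_sq (a b e q : ℝ) (ha : 0 ≤ a) (hab : a ≤ b + e * q)
    (hbq : b ≤ 4 / 3 * q) (he : 0 ≤ e) (he3 : e ≤ 1 / 3) (hq : 0 ≤ q) :
    a ^ 2 ≤ b ^ 2 + 3 * e * q ^ 2 := by
  have h1 : a ^ 2 ≤ (b + e * q) ^ 2 := pow_le_pow_left₀ ha hab 2
  have h0 : 0 ≤ e * q := mul_nonneg he hq
  have h2 : b * (e * q) ≤ 4 / 3 * q * (e * q) := mul_le_mul_of_nonneg_right hbq h0
  have h3 : e * q * (e * q) ≤ 1 / 3 * q * (e * q) :=
    mul_le_mul_of_nonneg_right (mul_le_mul_of_nonneg_right he3 hq) h0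
  nlinarith

theorem pdc_lim (κ a b : ℝ) (hκ : 0 < κ) :
    ∀ᶠ i : ℕ in atTop, a * (i : ℝ) + b ≤ κ * 2 ^ i := by
  have h1 := tendsto_pow_const_div_const_pow_of_one_lt 1 (one_lt_two : (1 : ℝ) < 2)
  have h2 := tendsto_pow_const_div_const_pow_of_one_lt 0 (one_lt_two : (1 : ℝ) < 2)
  have h3 := (h1.const_mul a).add (h2.const_mul b)
  rw [mul_zero, mul_zero, add_zero] at h3
  filter_upwards [h3.eventually (gt_mem_nhds hκ)] with i hi
  have hp : (0 : ℝ) < 2 ^ i := by positivity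
  have e1 : a * ((i : ℝ) ^ 1 / 2 ^ i) + b * ((i : ℝ) ^ 0 / 2 ^ i) = (a * (i : ℝ) + b) / 2 ^ i := by
    rw [pow_one, pow_zero]
    ring
  rw [e1, div_lt_iff₀ hp] at hi
  exact hi.le

theorem st_PDC (h1 : ST_PDT) (h2 : ST_CNT2) (h3 : AZ.ST_FPV) (h4 : AZ.ST_TLR) : ST_PDC := by
  intro r A β S hS hM κ hκ
  obtain ⟨C, hC⟩ := h2 r A
  have hr0 : (0 : ℝ) ≤ r := Nat.cast_nonneg r
  obtain ⟨δ, hδ, hδ2⟩ : ∃ δ : ℝ, 0 < δ ∧ (r : ℝ) * δ ^ 2 ≤ κ / 16 := by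
    refine ⟨Real.sqrt (κ / (16 * (r + 1))), by positivity, ?_⟩
    rw [Real.sq_sqrt (by positivity), mul_div_assoc', div_le_div_iff₀ (by positivity) (by norm_num)]
    nlinarith
  obtain ⟨e1, he1, he3, heκ⟩ : ∃ e1 : ℝ, 0 < e1 ∧ e1 ≤ 1 / 3 ∧ e1 ≤ κ / 96 :=
    ⟨min (1 / 3) (κ / 96), by positivity, min_le_left _ _, min_le_right _ _⟩
  have hlog : 0 < Real.log 2 := Real.log_pos one_lt_two
  refine ⟨κ * Real.log 2 / 128, δ, by positivity, hδ, ?_⟩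
  obtain ⟨I₀, hI⟩ := eventually_atTop.1 (pdc_lim (κ / 8) (16 * ((r : ℝ) + 1))
    (16 * ((r : ℝ) + 1 + 1 + C)) (by positivity))
  refine ⟨max I₀ 1, fun i hi hrich Q hQ F hF x => ?_⟩
  have hi0 := hI i (le_of_max_le_left hi)
  have hi1 : 1 ≤ i := le_of_max_le_right hi
  have hiR : (0 : ℝ) < i := by exact_mod_cast hi1
  have h2i : (0 : ℝ) < 2 ^ i := by positivity
  obtain ⟨B, hB⟩ : ∃ B : ℝ, B = ((PB 1 i).card : ℝ) := ⟨_, rfl⟩
  obtain ⟨q, hq⟩ : ∃ q : ℝ, q = (Q.card : ℝ) := ⟨_, rfl⟩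
  have hq0 : 0 ≤ q := by rw [hq]; exact Nat.cast_nonneg _
  have hqB : q ≤ B := by
    rw [hq, hB]
    exact_mod_cast Finset.card_le_card hQ
  have hrR : (2 : ℝ) ^ i ≤ 4 * i * B := by
    rw [hB]
    exact_mod_cast hrich
  have hB1 : 1 ≤ B := by
    have h5 : 0 < (PB 1 i).card := by
      rcases Nat.eq_zero_or_pos (PB 1 i).card with h | h
      · unfold Rich at hrich
        rw [h, mul_zero] at hrich
        exact absurd hrich (not_le.2 (by positivity))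
      · exact h
    rw [hB]
    exact_mod_cast h5
  -- approximations
  have happ : ∀ p, ∃ c : (Fin r → ℤ) →₀ ℂ, p ∈ Q →
      ∀ x, ‖F p x - ∑ X ∈ c.support, c X * mFourier X x‖ ≤ e1 := by
    intro p
    by_cases hp : p ∈ Q
    · obtain ⟨c, hc⟩ := pdc_app (F p) (hF p hp).1 e1 he1
      exact ⟨c, fun _ => hc⟩
    · exact ⟨0, fun h => absurd h hp⟩
  choose c hc using happ
  obtain ⟨Fs, hFs⟩ : ∃ Fs : Finset (Fin r → ℤ),
      Fs = insert 0 (Q.biUnion fun p => (c p).support) := ⟨_, rfl⟩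
  have h0 : (0 : Fin r → ℤ) ∈ Fs := by
    rw [hFs]
    exact Finset.mem_insert_self _ _
  obtain ⟨G, hGd⟩ : ∃ G : ℕ → T r → ℂ, G = fun p θ => ∑ X ∈ Fs, c p X * mFourier X θ := ⟨_, rfl⟩
  have hGa : ∀ p θ, G p θ = ∑ X ∈ Fs, c p X * mFourier X θ := fun p θ => by rw [hGd]
  have hGc : ∀ p, Continuous (G p) := by
    intro p
    rw [hGd]
    exact continuous_finsetSum _ fun X _ => continuous_const.mul (mFourier X).continuous
  have hGF : ∀ p ∈ Q, ∀ x, ‖F p x - G p x‖ ≤ e1 := by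
    intro p hp x
    have e : G p x = ∑ X ∈ (c p).support, c p X * mFourier X x := by
      rw [hGa]
      symm
      refine Finset.sum_subset ?_ ?_
      · intro X hX
        rw [hFs]
        exact Finset.mem_insert_of_mem (Finset.mem_biUnion.2 ⟨p, hp, hX⟩)
      · intro X _ hX
        rw [Finsupp.notMem_support_iff.1 hX, zero_mul]
    rw [e]
    exact hc p hp x
  have hG1 : ∀ p ∈ Q, ∀ x, ‖G p x‖ ≤ 4 / 3 := by
    intro p hp x
    have h5 := norm_sub_norm_le (G p x) (F p x)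
    rw [norm_sub_rev] at h5
    have h6 := hGF p hp x
    have h7 := (hF p hp).2.1 x
    linarith
  have hfc : ∀ p, ∀ X ∈ Fs, AZ.fc (G p) X = c p X := by
    intro p X hX
    rw [hGd]
    exact pdc_fc Fs (fun X => c p X) X hX
  -- the parameters
  obtain ⟨m, hm⟩ : ∃ m : ℕ, m = ⌈κ / 128 * 2 ^ i⌉₊ := ⟨_, rfl⟩
  have hm1 : κ / 128 * 2 ^ i ≤ m := by
    rw [hm]
    exact Nat.le_ceil _
  have hm2 : (m : ℝ) ≤ κ / 128 * 2 ^ i + 1 := by
    rw [hm]
    exact (Nat.ceil_lt_add_one (by positivity)).le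
  obtain ⟨n₀, hn₀⟩ : ∃ n₀ : ℕ, n₀ = ((i + 1) * (r + 1) + m + C) / i := ⟨_, rfl⟩
  have hn : 4 * (n₀ : ℝ) * q ≤ κ / 4 * B ^ 2 := by
    have h5 : (n₀ : ℝ) * i ≤ ((i : ℝ) + 1) * (r + 1) + m + C := by
      have h6 : n₀ * i ≤ (i + 1) * (r + 1) + m + C := by
        rw [hn₀]
        exact Nat.div_mul_le_self _ _
      exact_mod_cast h6
    have h6 : (n₀ : ℝ) * i * 16 ≤ κ / 4 * 2 ^ i := by nlinarith
    have h7 : (n₀ : ℝ) * i * 16 ≤ κ / 4 * (4 * i * B) :=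
      h6.trans (mul_le_mul_of_nonneg_left hrR (by positivity))
    have h8 : (n₀ : ℝ) * 16 ≤ κ / 4 * (4 * B) := by
      have h9 : (n₀ : ℝ) * 16 * i ≤ κ / 4 * (4 * B) * i := by
        calc (n₀ : ℝ) * 16 * i = (n₀ : ℝ) * i * 16 := by ring
          _ ≤ κ / 4 * (4 * i * B) := h7
          _ = κ / 4 * (4 * B) * i := by ring
      exact le_of_mul_le_mul_right h9 hiR
    have h9 : 4 * (n₀ : ℝ) ≤ κ / 4 * B := by linarith
    calc 4 * (n₀ : ℝ) * q ≤ κ / 4 * B * q := mul_le_mul_of_nonneg_right h9 hq0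
      _ ≤ κ / 4 * B * B := mul_le_mul_of_nonneg_left hqB (by positivity)
      _ = κ / 4 * B ^ 2 := by ring
  have hpos : ∀ p ∈ Q, 1 ≤ p := by
    intro p hp
    exact ((Finset.mem_filter.1 (hQ hp)).2.1).one_lt.le
  have hmain := h1 r A β S x Q Fs (fun p X => c p X) (2 ^ m) n₀ (2 * (κ / 16) + 2 * e1 ^ 2)
    hS hM hpos h0 ?_ ?_ ?_ (κ / 8) (by positivity)
  · filter_upwards [hmain] with M hMM
    have hM0 : (0 : ℝ) ≤ M := Nat.cast_nonneg M
    rw [← hq] at hMM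
    rw [← hB]
    have hF1 : ∑ y ∈ Icc 1 M, ‖∑ p ∈ Q, F p (S^[p * y] x)‖ ^ 2 ≤
        ∑ y ∈ Icc 1 M, (‖∑ p ∈ Q, ∑ X ∈ Fs, c p X * mFourier X (S^[p * y] x)‖ ^ 2 +
          3 * e1 * q ^ 2) := by
      refine Finset.sum_le_sum fun y _ => ?_
      have e2 : ∑ p ∈ Q, ∑ X ∈ Fs, c p X * mFourier X (S^[p * y] x) =
          ∑ p ∈ Q, G p (S^[p * y] x) := Finset.sum_congr rfl fun p _ => (hGa p _).symm
      rw [e2]
      refine pdc_sq _ _ e1 q (norm_nonneg _) ?_ ?_ he1.le he3 hq0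
      · have e3 : ∑ p ∈ Q, F p (S^[p * y] x) = ∑ p ∈ Q, G p (S^[p * y] x) +
            ∑ p ∈ Q, (F p (S^[p * y] x) - G p (S^[p * y] x)) := by
          rw [← Finset.sum_add_distrib]
          refine Finset.sum_congr rfl fun p _ => ?_
          ring
        rw [e3]
        refine (norm_add_le _ _).trans (add_le_add le_rfl ?_)
        refine (norm_sum_le _ _).trans ?_
        refine (Finset.sum_le_sum fun p hp => hGF p hp _).trans ?_
        rw [Finset.sum_const, nsmul_eq_mul, ← hq, mul_comm]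
      · refine (norm_sum_le _ _).trans ?_
        refine (Finset.sum_le_sum fun p hp => hG1 p hp _).trans ?_
        rw [Finset.sum_const, nsmul_eq_mul, ← hq, mul_comm]
    rw [Finset.sum_add_distrib, Finset.sum_const, Nat.card_Icc, nsmul_eq_mul,
      Nat.add_sub_cancel] at hF1
    have hz : ‖∑ p ∈ Q, c p 0‖ ^ 2 ≤ ‖∑ p ∈ Q, ∫ y, F p y ∂(mm r)‖ ^ 2 + 3 * e1 * q ^ 2 := by
      refine pdc_sq _ _ e1 q (norm_nonneg _) ?_ ?_ he1.le he3 hq0
      · have e3 : ∑ p ∈ Q, c p 0 = ∑ p ∈ Q, ∫ y, F p y ∂(mm r) +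
            ∑ p ∈ Q, (c p 0 - ∫ y, F p y ∂(mm r)) := by
          rw [← Finset.sum_add_distrib]
          refine Finset.sum_congr rfl fun p _ => ?_
          ring
        rw [e3]
        refine (norm_add_le _ _).trans (add_le_add le_rfl ?_)
        refine (norm_sum_le _ _).trans ?_
        have h5 : ∀ p ∈ Q, ‖c p 0 - ∫ y, F p y ∂(mm r)‖ ≤ e1 := by
          intro p hp
          rw [← hfc p 0 h0]
          exact pdc_zero (F p) (G p) (hF p hp).1 (hGc p) e1 (hGF p hp)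
        refine (Finset.sum_le_sum h5).trans ?_
        rw [Finset.sum_const, nsmul_eq_mul, ← hq, mul_comm]
      · refine (norm_sum_le _ _).trans ?_
        have h5 : ∀ p ∈ Q, ‖∫ y, F p y ∂(mm r)‖ ≤ 1 := by
          intro p hp
          have h := norm_integral_le_of_norm_le_const (μ := mm r) (f := F p) (C := 1)
            (Eventually.of_forall fun x => (hF p hp).2.1 x)
          simpa using h
        refine (Finset.sum_le_sum h5).trans ?_
        rw [Finset.sum_const, nsmul_eq_mul, ← hq]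
        linarith
    have hq2 : q ^ 2 ≤ B ^ 2 := pow_le_pow_left₀ hq0 hqB 2
    have hB2 : 1 ≤ B ^ 2 := one_le_pow₀ hB1
    have hq20 : 0 ≤ q ^ 2 := by positivity
    have he2 : e1 ^ 2 ≤ 1 / 3 * e1 := by nlinarith
    have hc1 : 3 * e1 * q ^ 2 + 3 * e1 * q ^ 2 + 2 * (2 * (κ / 16) + 2 * e1 ^ 2) * q ^ 2 ≤
        κ / 2 * B ^ 2 := by
      have h5 : 3 * e1 + 3 * e1 + 2 * (2 * (κ / 16) + 2 * e1 ^ 2) ≤ κ / 2 := by linarith
      calc 3 * e1 * q ^ 2 + 3 * e1 * q ^ 2 + 2 * (2 * (κ / 16) + 2 * e1 ^ 2) * q ^ 2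
          = (3 * e1 + 3 * e1 + 2 * (2 * (κ / 16) + 2 * e1 ^ 2)) * q ^ 2 := by ring
        _ ≤ κ / 2 * q ^ 2 := mul_le_mul_of_nonneg_right h5 hq20
        _ ≤ κ / 2 * B ^ 2 := mul_le_mul_of_nonneg_left hq2 (by positivity)
    have hc2 : κ / 8 ≤ κ / 8 * B ^ 2 := le_mul_of_one_le_right (by positivity) hB2
    have hc3 : ‖∑ p ∈ Q, c p 0‖ ^ 2 + 4 * n₀ * q + 2 * (2 * (κ / 16) + 2 * e1 ^ 2) * q ^ 2 +
        κ / 8 + 3 * e1 * q ^ 2 ≤ ‖∑ p ∈ Q, ∫ y, F p y ∂(mm r)‖ ^ 2 + κ * B ^ 2 := by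
      have h5 : 0 ≤ κ * B ^ 2 := by positivity
      nlinarith
    calc ∑ y ∈ Icc 1 M, ‖∑ p ∈ Q, F p (S^[p * y] x)‖ ^ 2
        ≤ (‖∑ p ∈ Q, c p 0‖ ^ 2 + 4 * n₀ * q + 2 * (2 * (κ / 16) + 2 * e1 ^ 2) * q ^ 2 +
            κ / 8) * M + M * (3 * e1 * q ^ 2) := hF1.trans (add_le_add hMM le_rfl)
      _ = (‖∑ p ∈ Q, c p 0‖ ^ 2 + 4 * n₀ * q + 2 * (2 * (κ / 16) + 2 * e1 ^ 2) * q ^ 2 +
            κ / 8 + 3 * e1 * q ^ 2) * M := by ring
      _ ≤ _ := mul_le_mul_of_nonneg_right hc3 hM0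
  · intro p hp
    have h5 := pdc_mass h3 (G p) (hGc p) (4 / 3) (hG1 p hp) Fs
    have h6 : ∑ X ∈ Fs, ‖c p X‖ ^ 2 = ∑ X ∈ Fs, ‖AZ.fc (G p) X‖ ^ 2 :=
      Finset.sum_congr rfl fun X hX => by rw [hfc p X hX]
    rw [h6]
    refine h5.trans ?_
    norm_num
  · intro p hp F' hF' hhigh
    have h6 : ∑ X ∈ F', ‖c p X‖ ^ 2 = ∑ X ∈ F', ‖AZ.fc (G p) X‖ ^ 2 :=
      Finset.sum_congr rfl fun X hX => by rw [hfc p X (hF' hX)]
    rw [h6]
    refine pdc_high h3 (F p) (G p) (hF p hp).1 (hGc p) e1 (κ / 16) (hGF p hp) F' ?_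
    refine (h4 r (F p) (2 ^ m) δ (hF p hp).1 Nat.one_le_two_pow hδ.le ?_ F' hhigh).trans hδ2
    intro θ s hs
    refine (hF p hp).2.2 _ _ ?_
    rw [dist_eq_norm, add_sub_cancel_left]
    refine hs.trans ?_
    have e4 : (1 : ℝ) / ((2 ^ m : ℕ) : ℝ) = Real.exp (-(m * Real.log 2)) := by
      rw [Real.exp_neg, ← Real.log_pow, Real.exp_log (by positivity)]
      push_cast
      rw [one_div]
    rw [e4]
    refine Real.exp_le_exp.2 ?_
    have h7 : κ / 128 * 2 ^ i * Real.log 2 ≤ m * Real.log 2 :=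
      mul_le_mul_of_nonneg_right hm1 hlog.le
    have h8 : -(κ * Real.log 2 / 128) * 2 ^ i = -(κ / 128 * 2 ^ i * Real.log 2) := by ring
    rw [h8]
    linarith
  · intro k hk Z hZ S' hS' hex
    rw [hn₀, Nat.le_div_iff_mul_le (by omega)]
    have := hC i m k Z hZ hk S' (hS'.trans hQ) hex
    rw [mul_comm]
    exact this

end Pool.Agent.Helper16.BZ
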